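import Mathlib
import Pool.Agent.Helper15.JD.Av

/-!
# JD: invariant combinations of embeddings are combinations of orbits
-/

set_option linter.unusedSectionVars false

namespace Pool.Agent.Helper67.JD

open VC VF Function Pool.Agent.Helper15.GT Pool.Agent.Helper15.KP Pool.Agent.Helper15.JC Pool.Agent.Helper15.JD

universe u

variable {k : Type u} [Field k] [IsAlgClosed k] [CharZero k] {F K : Type u} [Field F] [Algebra k F] [Field K] [Algebra k K]

lemma exists_gens67 (hM : IsFunctionField k K) : ∃ S : Finset K, IntermediateField.adjoin k (S : Set K) = ⊤ := by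
  classical
  obtain ⟨t, ht, hfin⟩ := hM
  obtain ⟨B, hB⟩ := hfin.fg_top
  refine ⟨insert t B, ?_⟩
  have ht' : IntermediateField.adjoin k {t} ≤ IntermediateField.adjoin k (insert t B : Finset K) := by
    apply IntermediateField.adjoin.mono
    rw [Set.singleton_subset_iff]
    simp
  rw [eq_top_iff]
  intro z _
  have hz : z ∈ Submodule.span (IntermediateField.adjoin k {t}) (B : Set K) := by
    rw [hB]
    trivial
  induction hz using Submodule.span_induction with
  | mem x hx => exact IntermediateField.subset_adjoin k _ (by simp [Finset.mem_coe.mp hx])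
  | zero => exact zero_mem _
  | add x y _ _ hx hy => exact add_mem (hx trivial) (hy trivial)
  | smul a x _ hx =>
    rw [Algebra.smul_def]
    exact mul_mem (ht' a.2) (hx trivial)

/-- the automorphisms over `F` -/
def Fix (e : AlgebraicClosure F ≃ₐ[k] AlgebraicClosure F) : Prop := ∀ z : F, e (iF k F z) = iF k F z

lemma comp_inj (e : AlgebraicClosure F ≃ₐ[k] AlgebraicClosure F) :
    Injective fun σ : K →ₐ[k] AlgebraicClosure F => (e : AlgebraicClosure F →ₐ[k] AlgebraicClosure F).comp σ := by
  intro σ σ' h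
  ext z
  exact e.injective (DFunLike.congr_fun h z)

lemma inv_iff (c : (K →ₐ[k] AlgebraicClosure F) →₀ ℤ) : Inv c ↔
    ∀ e : AlgebraicClosure F ≃ₐ[k] AlgebraicClosure F, Fix e → ∀ ρ,
      c ((e : AlgebraicClosure F →ₐ[k] AlgebraicClosure F).comp ρ) = c ρ := by
  constructor
  · intro h e he ρ
    have h1 := h e he
    have h2 := Finsupp.mapDomain_apply (comp_inj (K := K) e) c ρ
    rw [h1] at h2
    exact h2
  · intro h e he
    ext ρ
    obtain ⟨ρ', hρ'⟩ : ∃ ρ', (e : AlgebraicClosure F →ₐ[k] AlgebraicClosure F).comp ρ' = ρ := by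
      refine ⟨(e.symm : AlgebraicClosure F →ₐ[k] AlgebraicClosure F).comp ρ, ?_⟩
      ext z
      exact e.apply_symm_apply (ρ z)
    have h2 := Finsupp.mapDomain_apply (comp_inj (K := K) e) c ρ'
    rw [← hρ']
    exact h2.trans (h e he ρ').symm

open Classical in
/-- the sum over the orbit of an embedding -/
theorem orb_sum (hK : IsFunctionField k K) (ρ₀ : K →ₐ[k] AlgebraicClosure F) :
    ∃ (N : Type u) (_ : Field N) (_ : Algebra k N) (i : F →ₐ[k] N) (_ : (i : F →+* N).Finite) (j : K →ₐ[k] N),
      Finite {σ : N →ₐ[k] AlgebraicClosure F // ∀ z, σ (i z) = iF k F z} ∧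
      ∀ ρ : K →ₐ[k] AlgebraicClosure F,
        (∑ᶠ σ : {σ : N →ₐ[k] AlgebraicClosure F // ∀ z, σ (i z) = iF k F z}, Finsupp.single (σ.1.comp j) (1 : ℤ)) ρ =
          if ∃ e : AlgebraicClosure F ≃ₐ[k] AlgebraicClosure F, Fix e ∧
            (e : AlgebraicClosure F →ₐ[k] AlgebraicClosure F).comp ρ₀ = ρ then 1 else 0 := by
  have hF : CharZero F := charZero_of_injective_algebraMap (algebraMap k F).injective
  obtain ⟨S, hS⟩ := exists_gens67 hK
  obtain ⟨R, hR⟩ : ∃ R : IntermediateField F (AlgebraicClosure F), R = IntermediateField.adjoin F (ρ₀ '' (S : Set K)) :=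
    ⟨_, rfl⟩
  have hfin : FiniteDimensional F R := by
    rw [hR]
    have : Finite (ρ₀ '' (S : Set K)) := (S.finite_toSet.image ρ₀).to_subtype
    exact IntermediateField.finiteDimensional_adjoin fun x _ => (Algebra.IsAlgebraic.isAlgebraic x).isIntegral
  have hmem : ∀ z : K, ρ₀ z ∈ R := by
    intro z
    have hz : z ∈ IntermediateField.adjoin k (S : Set K) := by
      rw [hS]
      trivial
    induction hz using IntermediateField.adjoin_induction with
    | mem x hx =>
      rw [hR]
      exact IntermediateField.subset_adjoin F _ ⟨x, hx, rfl⟩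
    | algebraMap c =>
      rw [AlgHom.commutes, IsScalarTower.algebraMap_apply k F (AlgebraicClosure F)]
      exact R.algebraMap_mem _
    | add x y _ _ hx hy =>
      rw [map_add]
      exact add_mem hx hy
    | inv x _ hx =>
      rw [map_inv₀]
      exact inv_mem hx
    | mul x y _ _ hx hy =>
      rw [map_mul]
      exact mul_mem hx hy
  let i : F →ₐ[k] R := IsScalarTower.toAlgHom k F R
  let j : K →ₐ[k] R :=
    { toFun := fun z => ⟨ρ₀ z, hmem z⟩
      map_one' := Subtype.ext (map_one ρ₀)
      map_mul' := fun a b => Subtype.ext (map_mul ρ₀ a b)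
      map_zero' := Subtype.ext (map_zero ρ₀)
      map_add' := fun a b => Subtype.ext (map_add ρ₀ a b)
      commutes' := fun c => Subtype.ext (ρ₀.commutes c) }
  have hi : (i : F →+* R).Finite := RingHom.finite_algebraMap.mpr hfin
  have hfinite : Finite {σ : R →ₐ[k] AlgebraicClosure F // ∀ z, σ (i z) = iF k F z} := by
    let g : {σ : R →ₐ[k] AlgebraicClosure F // ∀ z, σ (i z) = iF k F z} → (R →ₐ[F] AlgebraicClosure F) := fun σ =>
      { (σ.1 : R →+* AlgebraicClosure F) with commutes' := fun c => σ.2 c }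
    refine Finite.of_injective g fun a b h => Subtype.ext ?_
    ext z
    exact DFunLike.congr_fun h z
  have hinj : ∀ σ σ' : {σ : R →ₐ[k] AlgebraicClosure F // ∀ z, σ (i z) = iF k F z}, σ.1.comp j = σ'.1.comp j → σ = σ' := by
    intro σ σ' h
    apply Subtype.ext
    ext ⟨z, hz⟩
    have key : ∀ z ∈ IntermediateField.adjoin F (ρ₀ '' (S : Set K)), ∀ hz : z ∈ R, σ.1 ⟨z, hz⟩ = σ'.1 ⟨z, hz⟩ := by
      intro z hz
      induction hz using IntermediateField.adjoin_induction with
      | mem x hx =>
        intro hz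
        obtain ⟨y, -, rfl⟩ := hx
        exact DFunLike.congr_fun h y
      | algebraMap c =>
        intro hz
        exact (σ.2 c).trans (σ'.2 c).symm
      | add x y hx hy h1 h2 =>
        intro hz
        rw [← hR] at hx hy
        have e : (⟨x + y, hz⟩ : R) = ⟨x, hx⟩ + ⟨y, hy⟩ := rfl
        rw [e, map_add, map_add, h1 hx, h2 hy]
      | inv x hx h1 =>
        intro hz
        rw [← hR] at hx
        have e : (⟨x⁻¹, hz⟩ : R) = (⟨x, hx⟩ : R)⁻¹ := rfl
        rw [e, map_inv₀, map_inv₀, h1 hx]
      | mul x y hx hy h1 h2 =>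
        intro hz
        rw [← hR] at hx hy
        have e : (⟨x * y, hz⟩ : R) = ⟨x, hx⟩ * ⟨y, hy⟩ := rfl
        rw [e, map_mul, map_mul, h1 hx, h2 hy]
    exact key z (hR ▸ hz) hz
  refine ⟨R, inferInstance, inferInstance, i, hi, j, hfinite, fun ρ => ?_⟩
  let _ : Fintype {σ : R →ₐ[k] AlgebraicClosure F // ∀ z, σ (i z) = iF k F z} := Fintype.ofFinite _
  rw [finsum_eq_sum_of_fintype, Finsupp.finsetSum_apply]
  split_ifs with h
  · obtain ⟨e, he, rfl⟩ := h
    let σ₀ : {σ : R →ₐ[k] AlgebraicClosure F // ∀ z, σ (i z) = iF k F z} :=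
      ⟨(e : AlgebraicClosure F →ₐ[k] AlgebraicClosure F).comp (R.val.restrictScalars k), fun z => he z⟩
    have h0 : σ₀.1.comp j = (e : AlgebraicClosure F →ₐ[k] AlgebraicClosure F).comp ρ₀ := by
      ext z
      rfl
    rw [Finset.sum_eq_single σ₀]
    · rw [h0, Finsupp.single_eq_same]
    · intro σ _ hσ
      apply Finsupp.single_eq_of_ne
      intro h1
      exact hσ (hinj _ _ (by rw [h0]; exact h1.symm))
    · intro h1
      exact absurd (Finset.mem_univ _) h1
  · refine Finset.sum_eq_zero fun σ _ => ?_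
    apply Finsupp.single_eq_of_ne
    rintro rfl
    apply h
    let σF : R →ₐ[F] AlgebraicClosure F := { (σ.1 : R →+* AlgebraicClosure F) with commutes' := fun c => σ.2 c }
    let eF : AlgebraicClosure F →ₐ[F] AlgebraicClosure F := σF.liftNormal (AlgebraicClosure F)
    have hb : Bijective eF := Algebra.IsAlgebraic.algHom_bijective eF
    refine ⟨(AlgEquiv.ofBijective eF hb).restrictScalars k, fun z => eF.commutes z, ?_⟩
    ext z
    have h1 := σF.liftNormal_commutes (AlgebraicClosure F) (j z)
    exact h1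

/-- [ORB] -/
theorem orb : StmtOrb.{u} := by
  classical
  intro k F K _ _ _ _ _ _ _ hK c hc
  obtain ⟨n, hn⟩ : ∃ n, c.support.card = n := ⟨_, rfl⟩
  induction n using Nat.strong_induction_on generalizing c with
  | _ n ih =>
    by_cases h0 : c = 0
    · rw [h0]
      exact zero_mem _
    · obtain ⟨ρ₀, hρ₀⟩ := Finsupp.ne_iff.mp h0
      rw [Finsupp.zero_apply] at hρ₀
      obtain ⟨N, iN, aN, i, hi, j, hfin, ho⟩ := orb_sum hK ρ₀
      obtain ⟨o, hoe⟩ : ∃ o : (K →ₐ[k] AlgebraicClosure F) →₀ ℤ,
          o = ∑ᶠ σ : {σ : N →ₐ[k] AlgebraicClosure F // ∀ z, σ (i z) = iF k F z}, Finsupp.single (σ.1.comp j) 1 := ⟨_, rfl⟩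
      rw [← hoe] at ho
      have hmemo : o ∈ AddSubgroup.closure {o : (K →ₐ[k] AlgebraicClosure F) →₀ ℤ | ∃ (N : Type u) (_ : Field N)
          (_ : Algebra k N) (i : F →ₐ[k] N) (_ : (i : F →+* N).Finite) (j : K →ₐ[k] N),
          Finite {σ : N →ₐ[k] AlgebraicClosure F // ∀ z, σ (i z) = iF k F z} ∧
          o = ∑ᶠ σ : {σ : N →ₐ[k] AlgebraicClosure F // ∀ z, σ (i z) = iF k F z}, Finsupp.single (σ.1.comp j) 1} :=
        AddSubgroup.subset_closure ⟨N, iN, aN, i, hi, j, hfin, hoe⟩
      rw [inv_iff] at hc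
      obtain ⟨c', hc'⟩ : ∃ c', c' = c - c ρ₀ • o := ⟨_, rfl⟩
      have hval : ∀ ρ, c' ρ = c ρ - c ρ₀ * o ρ := by
        intro ρ
        rw [hc', Finsupp.sub_apply, Finsupp.smul_apply, smul_eq_mul]
      have horb : ∀ e : AlgebraicClosure F ≃ₐ[k] AlgebraicClosure F, Fix e → ∀ ρ,
          o ((e : AlgebraicClosure F →ₐ[k] AlgebraicClosure F).comp ρ) = o ρ := by
        intro e he ρ
        rw [ho, ho]
        congr 1
        apply propext
        constructor
        · rintro ⟨e', he', h⟩
          refine ⟨e'.trans e.symm, fun z => ?_, ?_⟩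
          · change e.symm (e' (iF k F z)) = iF k F z
            rw [he', AlgEquiv.symm_apply_eq, he]
          · ext z
            change e.symm (e' (ρ₀ z)) = ρ z
            rw [AlgEquiv.symm_apply_eq]
            exact DFunLike.congr_fun h z
        · rintro ⟨e', he', h⟩
          refine ⟨e'.trans e, fun z => ?_, ?_⟩
          · change e (e' (iF k F z)) = iF k F z
            rw [he', he]
          · ext z
            change e (e' (ρ₀ z)) = e (ρ z)
            congr 1
            exact DFunLike.congr_fun h z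
      have hinv' : Inv c' := by
        rw [inv_iff]
        intro e he ρ
        rw [hval, hval, hc e he, horb e he]
      have hsub : c'.support ⊂ c.support := by
        rw [Finset.ssubset_iff_of_subset]
        · refine ⟨ρ₀, Finsupp.mem_support_iff.mpr hρ₀, ?_⟩
          rw [Finsupp.notMem_support_iff, hval, ho, if_pos ⟨AlgEquiv.refl, fun z => rfl, by ext z; rfl⟩]
          ring
        · intro ρ hρ
          rw [Finsupp.mem_support_iff] at hρ ⊢
          intro h1
          apply hρ
          rw [hval, h1, ho]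
          split_ifs with h2
          · obtain ⟨e, he, h3⟩ := h2
            rw [← h3, hc e he] at h1
            exact absurd h1 hρ₀
          · ring
      have h1 := ih c'.support.card (by rw [← hn]; exact Finset.card_lt_card hsub) c' hinv' rfl
      have h2 : c = c' + c ρ₀ • o := by
        rw [hc']
        abel
      rw [h2]
      exact add_mem h1 (AddSubgroup.zsmul_mem _ hmemo _)

end Pool.Agent.Helper67.JD
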